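import Pool.Agent.H16.PCPU
import Pool.Agent.H23.PR

set_option autoImplicit false

namespace Pool.Agent.Results.MP_c0e261_lc.Undec
open Relation List Pool.Agent.H16.PCPU

/-- strings over nonterminals (`inl`) and terminals (`inr`) -/
abbrev Str := List (ℕ ⊕ ℕ)

/-- a global index grammar: the start symbol and the lists of productions of the four forms;
`(A, α)` is (i.1); `(A, y, α)` is (i.2), with `none` for the bottom symbol;
`(A, x, a, α)` is (ii) with right-hand side `a α`; `(A, x, α)` is (iii) -/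
abbrev GIG := ℕ × List (ℕ × Str) × List (ℕ × Option ℕ × Str) × List (ℕ × ℕ × ℕ × Str) ×
  List (ℕ × ℕ × Str)

/-- a production rewrites `A` to `α` and changes the stack `δ` (top first, bottom symbol omitted)
to `δ'` -/
def Prod (G : GIG) (A : ℕ) (α : Str) (δ δ' : List ℕ) : Prop :=
  ((A, α) ∈ G.2.1 ∧ δ' = δ) ∨ ((A, δ.head?, α) ∈ G.2.2.1 ∧ δ' = δ) ∨
    (∃ x a β, (A, x, a, β) ∈ G.2.2.2.1 ∧ α = .inr a :: β ∧ δ' = x :: δ) ∨
      ∃ x, (A, x, α) ∈ G.2.2.2.2 ∧ δ = x :: δ'

/-- one leftmost derivation step -/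
def Step (G : GIG) (c c' : List ℕ × Str) : Prop :=
  ∃ (u : List ℕ) (A : ℕ) (α γ : Str), Prod G A α c.1 c'.1 ∧
    c.2 = u.map .inr ++ .inl A :: γ ∧ c'.2 = u.map .inr ++ α ++ γ

/-- the generated language -/
def Lang (G : GIG) (w : List ℕ) : Prop := ReflTransGen (Step G) ([], [.inl G.1]) ([], w.map .inr)

/-- emptiness -/
def Empty (G : GIG) : Prop := ∀ w, ¬ Lang G w

def P (p : List ℕ) : Str := p.map fun x => .inl (2 * x + 1)
def Q (p : List ℕ) : Str := p.map fun x => .inl (2 * x + 2)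
def al (H K : List (List ℕ)) : List ℕ := (H ++ K).flatMap fun l => l
def red (H K : List (List ℕ)) : GIG :=
  (0, (range H.length).flatMap fun i => [(0, P (H.getD i []) ++ .inl 0 :: Q (K.getD i []).reverse),
    (0, P (H.getD i []) ++ Q (K.getD i []).reverse)], [],
    (al H K).map fun x => (2 * x + 1, x, 0, []), (al H K).map fun x => (2 * x + 2, x, []))

theorem red_pr (K : List (List ℕ)) : Primrec fun H => red H K := by
  have : Primrec (Sum.inl : ℕ → ℕ ⊕ ℕ) := Primrec.sumInl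
  unfold red al P Q; fun_prop

variable {H K : List (List ℕ)}

def Acc (G : GIG) (δ : List ℕ) (γ : Str) : Prop :=
  ∀ u : List ℕ, ∃ w : List ℕ, ReflTransGen (Step G) (δ, u.map .inr ++ γ) ([], w.map .inr)

theorem accQ (q : List ℕ) (h : q ⊆ al H K) : Acc (red H K) q (Q q) := by
  induction q with
  | nil => exact fun u => ⟨u, by simp [Q]; rfl⟩
  | cons c q ih =>
    rw [cons_subset] at h
    intro u
    obtain ⟨w, e⟩ := ih h.2 u
    exact ⟨w, .head ⟨u, 2 * c + 2, [], Q q, .inr (.inr (.inr ⟨c, mem_map.2 ⟨c, h.1, rfl⟩, rfl⟩)),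
      rfl, by simp⟩ e⟩

theorem accP (p : List ℕ) (h : p ⊆ al H K) (γ : Str) : ∀ δ, Acc (red H K) (p.reverse ++ δ) γ →
    Acc (red H K) δ (P p ++ γ) := by
  induction p with
  | nil => intro δ a; simpa [P] using a
  | cons c p ih =>
    rw [cons_subset] at h
    intro δ a u
    obtain ⟨w, e⟩ := ih h.2 (c :: δ) (by simpa using a) (u ++ [0])
    exact ⟨w, .head ⟨u, 2 * c + 1, [.inr 0], P p ++ γ, .inr (.inr (.inl ⟨c, 0, [],
      mem_map.2 ⟨c, h.1, rfl⟩, rfl, rfl⟩)), rfl, by simp⟩ e⟩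

theorem acc0 {G : GIG} {δ : List ℕ} {α γ : Str} (m : (0, α) ∈ G.2.1) (a : Acc G δ (α ++ γ)) :
    Acc G δ (.inl 0 :: γ) := fun u => by
  obtain ⟨w, e⟩ := a u
  refine ⟨w, .head ?_ e⟩
  exact ⟨u, 0, α, γ, .inl ⟨m, rfl⟩, rfl, by simp⟩

theorem sub (i : ℕ) : H.getD i [] ⊆ al H K ∧ K.getD i [] ⊆ al H K := by
  have : ∀ L : List (List ℕ), ∀ x ∈ L.getD i [], ∃ l ∈ L, x ∈ l := fun L x m => by
    by_cases b : i < L.length
    · rw [getD_eq_getElem _ _ b] at m; exact ⟨_, getElem_mem b, m⟩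
    · rw [getD_eq_default _ _ (by omega)] at m; simp at m
  constructor <;> intro x m <;> obtain ⟨l, a, b⟩ := this _ x m <;>
    exact mem_flatMap.2 ⟨l, by simp [a], b⟩

theorem accS (x : List ℕ) : ∀ i δ q, (∀ j ∈ i :: x, j < H.length) → q ⊆ al H K →
    (F H (i :: x)).reverse ++ δ = (F K (i :: x)).reverse ++ q → Acc (red H K) δ (.inl 0 :: Q q) := by
  have s : ∀ i q, q ⊆ al H K → (K.getD i []).reverse ++ q ⊆ al H K := fun i q b =>
    append_subset.2 ⟨fun x m => (sub i).2 (mem_reverse.1 m), b⟩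
  induction x with
  | nil =>
    intro i δ q a b e
    refine acc0 (α := P (H.getD i []) ++ Q (K.getD i []).reverse)
      (mem_flatMap.2 ⟨i, mem_range.2 (a i (by simp)), by simp⟩) ?_
    rw [append_assoc]
    refine accP _ (sub i).1 _ _ ?_
    simp only [F, flatMap_cons, flatMap_nil, append_nil] at e
    rw [e, Q, Q, ← map_append]
    exact accQ _ (s i q b)
  | cons j x ih =>
    intro i δ q a b e
    refine acc0 (α := P (H.getD i []) ++ .inl 0 :: Q (K.getD i []).reverse)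
      (mem_flatMap.2 ⟨i, mem_range.2 (a i (by simp)), by simp⟩) ?_
    rw [append_assoc]
    refine accP _ (sub i).1 _ _ ?_
    rw [cons_append, Q, Q, ← map_append]
    exact ih j _ _ (fun k m => a k (mem_cons_of_mem _ m)) (s i q b) (by simpa [F] using e)

def Inv (H K : List (List ℕ)) (c : List ℕ × Str) : Prop :=
  ∃ (x p q r : List ℕ) (s : Str), (∀ j ∈ x, j < H.length) ∧ c.2.filter Sum.isLeft = P p ++ s ++ Q q ∧
    (s = [.inl 0] ∨ s = [] ∧ x ≠ []) ∧ (r = [] ∨ p = [] ∧ s = []) ∧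
    (F H x).reverse = p.reverse ++ r ++ c.1 ∧ (F K x).reverse = r ++ q

theorem inv_step {c c' : List ℕ × Str} (h : Inv H K c) (t : Step (red H K) c c') : Inv H K c' := by
  obtain ⟨x, p, q, r, s, a1, a2, a3, a4, a5, a6⟩ := h
  obtain ⟨u, A, α, γ, t, b1, b2⟩ := t
  have fu : (u.map Sum.inr : Str).filter Sum.isLeft = [] := by simp
  have fP : ∀ p, (P p).filter Sum.isLeft = P p := fun p => by simp [P]
  have fQ : ∀ p, (Q p).filter Sum.isLeft = Q p := fun p => by simp [Q]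
  rw [b1, filter_append, fu, nil_append, filter_cons_of_pos rfl] at a2
  have hd : (∃ z p', p = z :: p' ∧ A = 2 * z + 1 ∧ γ.filter Sum.isLeft = P p' ++ s ++ Q q) ∨
      (p = [] ∧ s = [.inl 0] ∧ A = 0 ∧ γ.filter Sum.isLeft = Q q) ∨
      ∃ z q', p = [] ∧ s = [] ∧ q = z :: q' ∧ A = 2 * z + 2 ∧ γ.filter Sum.isLeft = Q q' := by
    rcases p with _ | ⟨z, p⟩
    · obtain rfl | ⟨rfl, -⟩ := a3
      · simpa [P] using a2
      · rcases q with _ | ⟨z, q⟩
        · simp [P, Q] at a2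
        · simpa [P, Q] using a2
    · exact .inl ⟨z, p, rfl, by simpa [P] using a2⟩
  unfold Inv
  rw [b2, filter_append, filter_append, fu, nil_append]
  obtain ⟨m, e⟩ | ⟨m, -⟩ | ⟨z, a, β, m, rfl, e⟩ | ⟨z, m, e⟩ := t
  · obtain ⟨i, b, m⟩ := mem_flatMap.1 m
    have : A = 0 ∧ ∃ s', (s' = [.inl 0] ∨ s' = []) ∧
        α = P (H.getD i []) ++ s' ++ Q (K.getD i []).reverse := by
      simp only [mem_cons, Prod.mk.injEq, not_mem_nil, or_false] at m
      obtain m | m := m
      · exact ⟨m.1, _, .inl rfl, by simp [m.2]⟩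
      · exact ⟨m.1, _, .inr rfl, by simp [m.2]⟩
    obtain ⟨rfl, s', d, rfl⟩ := this
    obtain ⟨_, _, _, _, _⟩ | ⟨rfl, rfl, -, g⟩ | ⟨_, _, _, _, _, _, _⟩ := hd <;> try omega
    obtain rfl : r = [] := by simpa using a4
    refine ⟨x ++ [i], H.getD i [], (K.getD i []).reverse ++ q, [], s', ?_, ?_, ?_, .inl rfl, ?_, ?_⟩
    · exact forall_mem_append.2 ⟨a1, by simpa using b⟩
    · rw [g, filter_append, filter_append, fP, fQ, Q, Q, Q, map_append]
      rcases d with rfl | rfl <;> simp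
    · simpa using d
    · simpa [F, e] using a5
    · simpa [F] using a6
  · simp [red] at m
  · obtain ⟨z', -, m⟩ := mem_map.1 m
    simp only [Prod.mk.injEq] at m
    obtain ⟨rfl, rfl, rfl, rfl⟩ := m
    obtain ⟨w, p', rfl, d, g⟩ | ⟨_, _, _, _⟩ | ⟨_, _, _, _, _, _, _⟩ := hd <;> try omega
    obtain rfl : r = [] := by simpa using a4
    obtain rfl : z' = w := by omega
    exact ⟨x, p', q, [], s, a1, by simpa using g, a3, .inl rfl, by simpa [e] using a5, a6⟩
  · obtain ⟨z', -, m⟩ := mem_map.1 m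
    simp only [Prod.mk.injEq] at m
    obtain ⟨rfl, rfl, rfl⟩ := m
    obtain ⟨_, _, _, _, _⟩ | ⟨_, _, _, _⟩ | ⟨w, q', rfl, rfl, rfl, d, g⟩ := hd <;> try omega
    obtain rfl : z' = w := by omega
    exact ⟨x, [], q', r ++ [z'], [], a1, by simpa [P] using g, a3, .inr ⟨rfl, rfl⟩,
      by simpa [e] using a5, by simpa using a6⟩

theorem iff_sol : Empty (red H K) ↔ ¬ Sol H K := by
  refine ⟨fun h ⟨x, a, b, e⟩ => ?_, fun h w t => h ?_⟩
  · obtain ⟨i, x, rfl⟩ := exists_cons_of_ne_nil a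
    obtain ⟨w, t⟩ := accS (K := K) x i [] [] b (by simp) (by rw [e]) []
    exact h w t
  · have : ∀ c, ReflTransGen (Step (red H K)) ([], [.inl 0]) c → Inv H K c := fun c t => by
      induction t with
      | refl => exact ⟨[], [], [], [], [.inl 0], by simp [P, Q, F]⟩
      | tail _ t ih => exact inv_step ih t
    obtain ⟨x, p, q, r, s, a1, a2, a3, -, a5, a6⟩ := this _ t
    rw [show ((w.map Sum.inr : Str)).filter Sum.isLeft = [] by simp] at a2
    simp only [P, Q, nil_eq_append_iff, append_eq_nil_iff, map_eq_nil_iff] at a2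
    obtain ⟨⟨rfl, rfl⟩, rfl⟩ := a2
    exact ⟨x, by simpa using a3, a1, reverse_injective (by simpa [a6] using a5)⟩

theorem result : ¬ ComputablePred Empty := fun h => by
  obtain ⟨H, K, halt, a, b, c⟩ := main Unit
  refine b ?_
  have := (ComputablePred.computable_of_manyOneReducible (p := fun n => Empty (red (H n) K))
    ⟨_, (red_pr K).to_comp.comp a, fun _ => .rfl⟩ h).not
  exact this.of_eq fun n => by rw [iff_sol, not_not, (c n).2.2]

end Pool.Agent.Results.MP_c0e261_lc.Undec
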